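import Mathlib
import Pool.Agent.H157Z.Lev.Sum

set_option autoImplicit false
open MeasureTheory ProbabilityTheory Set Filter
open scoped ENNReal NNReal

namespace Pool.Agent.Results.MP_088492_pr.LevelSets

open Pool.Agent.H157Z.Lev

/-- For Brownian motion `B` and any `f` continuous on `[0,1]` there is a random open set `U`
(with measurable graph) such that almost surely `U` is non-empty, all level sets of `B - f` at
heights in `U` have Hausdorff dimension at least `1/2`, and `B - f` spends all its time in `U`. -/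
theorem result {Ω : Type*} [MeasurableSpace Ω] (P : Measure Ω) (B : ℝ≥0 → Ω → ℝ)
    (hB : IsBrownianReal B P) (f : ℝ → ℝ) (hf : ContinuousOn f (Icc 0 1)) :
    ∃ U : Ω → Set ℝ, MeasurableSet {p : Ω × ℝ | p.2 ∈ U p.1} ∧ (∀ ω, IsOpen (U ω)) ∧
      ∀ᵐ ω ∂P, (U ω).Nonempty ∧
        (∀ y ∈ U ω, 1 / 2 ≤ dimH {t : ℝ | t ∈ Icc (0:ℝ) 1 ∧ B t.toNNReal ω - f t = y}) ∧
        volume {t : ℝ | t ∈ Icc (0:ℝ) 1 ∧ B t.toNNReal ω - f t ∈ U ω} = 1 := by
  obtain ⟨C, h1, h2, h3⟩ := version hB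
  let g : ℝ → ℝ := fun t => f (projIcc 0 1 zero_le_one t)
  have N : Nice C P g := ⟨hB.toIsPreBrownianReal.congr fun t => h3.mono fun ω h => h t, h1, h2,
    hf.domRestrict.comp continuous_projIcc⟩
  refine ⟨fun ω => Good (XX C g ω), N.graph, fun ω => isOpen_good _, ?_⟩
  filter_upwards [h3, N.est] with ω e hω
  obtain ⟨a, b⟩ := det (N.xc ω) hω
  have key : ∀ p : ℝ → Prop, {t : ℝ | t ∈ Icc (0:ℝ) 1 ∧ p (B t.toNNReal ω - f t)} =
      {t : ℝ | t ∈ Icc (0:ℝ) 1 ∧ p (XX C g ω t)} := fun p => by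
    ext t
    refine and_congr_right fun ht => ?_
    simp only [XX, g, e, projIcc_of_mem zero_le_one ht]
  refine ⟨?_, fun y hy => ?_, ?_⟩
  · obtain ⟨t, ht⟩ := nonempty_of_measure_ne_zero (b.trans_ne one_ne_zero)
    exact ⟨_, ht.2⟩
  · rw [key (· = y)]; exact a y hy
  · rw [key (· ∈ Good (XX C g ω))]; exact b

end Pool.Agent.Results.MP_088492_pr.LevelSets
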